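import Pool.Agent.helper9.TH.Spec

namespace Pool.Agent.helper67.TH

open Pool.Agent.helper9.TH

universe u

/-- Identity in a ring: `∑_j N (u v^j) = p + (∑_{0<i<p} u^i) N v`. -/
theorem ring_identity {R : Type u} [Ring R] (p : ℕ) (hp : p.Prime) (u v : R)
    (huv : Commute u v) (hv : v ^ p = 1) :
    ∑ j ∈ Finset.range p, ∑ i ∈ Finset.range p, (u * v ^ j) ^ i
      = (p : R) + (∑ i ∈ (Finset.range p).erase 0, u ^ i) * ∑ j ∈ Finset.range p, v ^ j := by
  have hmod : ∀ n : ℕ, v ^ (n % p) = v ^ n := by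
    intro n
    conv_rhs => rw [← Nat.mod_add_div n p, pow_add, pow_mul, hv, one_pow, mul_one]
  rw [Finset.sum_comm]
  rw [← Finset.add_sum_erase (Finset.range p) _ (Finset.mem_range.2 hp.pos)]
  congr 1
  · simp
  · rw [Finset.sum_mul]
    refine Finset.sum_congr rfl fun i hi => ?_
    have hi0 : i ≠ 0 := (Finset.mem_erase.1 hi).1
    have hip : i < p := Finset.mem_range.1 (Finset.mem_erase.1 hi).2
    have h1 : ∀ j, (u * v ^ j) ^ i = u ^ i * v ^ ((i * j) % p) := by
      intro j
      rw [(huv.pow_right j).mul_pow, ← pow_mul, hmod, mul_comm j i]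
    simp only [h1]
    rw [← Finset.mul_sum]
    congr 1
    have hinj : Set.InjOn (fun j => (i * j) % p) (Finset.range p : Set ℕ) := by
      intro j hj j' hj' h
      have hjp : j < p := by simpa using hj
      have hjp' : j' < p := by simpa using hj'
      have hcop : Nat.gcd p i = 1 :=
        (hp.coprime_iff_not_dvd).2 fun hd => absurd (Nat.le_of_dvd (Nat.pos_of_ne_zero hi0) hd)
          (not_le.2 hip)
      have h2 : i * j ≡ i * j' [MOD p] := h
      have h3 : j ≡ j' [MOD p] := Nat.ModEq.cancel_left_of_coprime hcop h2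
      have h4 : j % p = j' % p := h3
      rwa [Nat.mod_eq_of_lt hjp, Nat.mod_eq_of_lt hjp'] at h4
    have himg : (Finset.range p).image (fun j => (i * j) % p) = Finset.range p := by
      apply Finset.eq_of_subset_of_card_le
      · intro y hy
        obtain ⟨j, _, rfl⟩ := Finset.mem_image.1 hy
        exact Finset.mem_range.2 (Nat.mod_lt _ hp.pos)
      · rw [Finset.card_image_of_injOn hinj]
    conv_rhs => rw [← himg]
    rw [Finset.sum_image (fun x hx y hy h => hinj (by simpa using hx) (by simpa using hy) h)]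

theorem eval_sum {A : Type u} [AddCommGroup A] (s : Finset ℕ) (f : ℕ → AddMonoid.End A) (x : A) :
    (∑ i ∈ s, f i) x = ∑ i ∈ s, f i x := by
  induction s using Finset.induction_on with
  | empty => rfl
  | insert a s ha ih =>
    rw [Finset.sum_insert ha, Finset.sum_insert ha, ← ih]
    rfl

theorem T5g : T5g_stmt.{u} := by
  intro p Γ _ B Q hp hBf hQf hEA hQc hcop hnorm hnc
  have := hBf
  have := hQf
  obtain ⟨hBc, hBp⟩ := hEA
  let _ : CommGroup Q := { (inferInstance : Group Q) with
    mul_comm := fun a b => Subtype.ext (hQc a a.2 b b.2) }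
  -- the action of `B` on `Q`
  let act : B → AddMonoid.End (Additive Q) := fun b =>
    AddMonoidHom.mk' (fun x : Additive Q =>
        (Additive.ofMul (⟨(b : Γ) * ((Additive.toMul x : Q) : Γ) * (b : Γ)⁻¹,
          hnorm b b.2 _ (Additive.toMul x : Q).2⟩ : Q)))
      (by
        intro x y
        apply Additive.toMul.injective
        apply Subtype.ext
        simp [mul_assoc])
  have act_apply : ∀ (b : B) (x : Q),
      ((Additive.toMul (act b (Additive.ofMul x)) : Q) : Γ) = b * x * (b : Γ)⁻¹ := fun b x => rfl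
  let ρ : B →* AddMonoid.End (Additive Q) :=
    { toFun := act
      map_one' := by
        refine DFunLike.ext _ _ fun x => ?_
        apply Additive.toMul.injective
        apply Subtype.ext
        have := act_apply 1 (Additive.toMul x)
        simpa using this
      map_mul' := by
        intro b c
        refine DFunLike.ext _ _ fun x => ?_
        apply Additive.toMul.injective
        apply Subtype.ext
        change ((b * c : B) : Γ) * _ * ((b * c : B) : Γ)⁻¹ = (b : Γ) * ((c : Γ) * _ * (c : Γ)⁻¹) * (b : Γ)⁻¹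
        simp [mul_assoc] }
  have ρ_apply : ∀ (b : B) (x : Q),
      ((Additive.toMul (ρ b (Additive.ofMul x)) : Q) : Γ) = b * x * (b : Γ)⁻¹ := fun b x => rfl
  have fix_iff : ∀ (b : B) (x : Q), ρ b (Additive.ofMul x) = Additive.ofMul x ↔
      (b : Γ) * x = x * b := by
    intro b x
    constructor
    · intro h
      have h1 : ((Additive.toMul (ρ b (Additive.ofMul x)) : Q) : Γ) = x := by rw [h]; rfl
      rw [ρ_apply] at h1
      exact mul_inv_eq_iff_eq_mul.1 h1
    · intro h
      apply Additive.toMul.injective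
      apply Subtype.ext
      rw [ρ_apply]
      exact mul_inv_eq_iff_eq_mul.2 h
  have ρc : ∀ b c : B, Commute (ρ b) (ρ c) := by
    intro b c
    have : b * c = c * b := Subtype.ext (hBc b b.2 c c.2)
    show ρ b * ρ c = ρ c * ρ b
    rw [← map_mul, ← map_mul, this]
  have ρp : ∀ b : B, ρ b ^ p = 1 := by
    intro b
    rw [← map_pow]
    have : b ^ p = 1 := Subtype.ext (by simpa using hBp b b.2)
    rw [this, map_one]
  -- stabilizers
  let st : Γ → Subgroup Γ := fun x => B ⊓ Subgroup.centralizer {x}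
  have mem_st : ∀ x b, b ∈ st x ↔ b ∈ B ∧ b * x = x * b := by
    intro x b
    simp only [st, Subgroup.mem_inf, Subgroup.mem_centralizer_iff, Set.mem_singleton_iff,
      forall_eq]
    constructor
    · rintro ⟨h1, h2⟩; exact ⟨h1, h2.symm⟩
    · rintro ⟨h1, h2⟩; exact ⟨h1, h2.symm⟩
  have st_le : ∀ x, st x ≤ B := fun x => inf_le_left
  have st_fin : ∀ x, Finite (st x) := fun x =>
    Finite.of_injective (Subgroup.inclusion (st_le x)) (Subgroup.inclusion_injective _)
  -- the best `x`
  let S : Set Γ := {x | x ∈ Q ∧ ∃ b ∈ B, b * x ≠ x * b}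
  have hSfin : S.Finite := (Set.toFinite (Q : Set Γ)).subset fun x hx => hx.1
  have hSne : S.Nonempty := by
    obtain ⟨b, hb, x, hx, hbx⟩ := hnc
    exact ⟨x, hx, b, hb, hbx⟩
  obtain ⟨x, ⟨hxQ, b0, hb0, hb0x⟩, hmax⟩ :=
    Set.exists_max_image S (fun x => Nat.card (st x)) hSfin hSne
  refine ⟨st x, st_le x, ?_, x, hxQ, fun c hc => ((mem_st x c).1 hc).2, b0, hb0, hb0x⟩
  by_contra hcard
  have hb0C : b0 ∉ st x := fun h => hb0x ((mem_st x b0).1 h).2
  -- `p * |C| ≤ |B|`
  have hBP : IsPGroup p B := by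
    intro b
    exact ⟨1, Subtype.ext (by simpa using hBp b b.2)⟩
  have : Fact p.Prime := ⟨hp⟩
  have hlt : p * Nat.card (st x) < Nat.card B := by
    have h1 : (st x).relIndex B * Nat.card (st x) = Nat.card B := by
      have := Subgroup.card_mul_index ((st x).subgroupOf B)
      rw [Nat.card_congr (Subgroup.subgroupOfEquivOfLe (st_le x)).toEquiv] at this
      rw [mul_comm]
      exact this
    obtain ⟨n, hn⟩ := hBP.index ((st x).subgroupOf B)
    have hn' : (st x).relIndex B = p ^ n := hn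
    have hn0 : n ≠ 0 := by
      rintro rfl
      rw [pow_zero] at hn'
      exact hb0C (Subgroup.relIndex_eq_one.1 hn' hb0)
    have h2 : p ≤ (st x).relIndex B := by
      rw [hn']
      calc p = p ^ 1 := (pow_one p).symm
        _ ≤ p ^ n := Nat.pow_le_pow_right hp.pos (Nat.one_le_iff_ne_zero.2 hn0)
    have h3 : p * Nat.card (st x) ≤ Nat.card B := by
      rw [← h1]; exact Nat.mul_le_mul_right _ h2
    exact lt_of_le_of_ne h3 fun h => hcard h.symm
  -- `b` outside of `C * ⟨b0⟩`
  obtain ⟨b, hbB, hbE⟩ : ∃ b ∈ B, ∀ c ∈ st x, ∀ i < p, b ≠ c * b0 ^ i := by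
    by_contra hcon
    push Not at hcon
    have hsurj : Function.Surjective (fun q : st x × Fin p =>
        (⟨(q.1 : Γ) * b0 ^ (q.2 : ℕ), B.mul_mem (st_le x q.1.2) (B.pow_mem hb0 _)⟩ : B)) := by
      intro b
      obtain ⟨c, hc, i, hi, h⟩ := hcon b b.2
      exact ⟨(⟨c, hc⟩, ⟨i, hi⟩), Subtype.ext h.symm⟩
    have h4 := Nat.card_le_card_of_surjective _ hsurj
    rw [Nat.card_prod, Nat.card_eq_fintype_card (α := Fin p), Fintype.card_fin, mul_comm] at h4
    exact absurd hlt (not_lt.2 h4)
  have hbC : b ∉ st x := fun h => hbE b h 0 hp.pos (by simp)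
  have habC : ∀ j < p, b0 * b ^ j ∉ st x := by
    intro j hj h
    rcases Nat.eq_zero_or_pos j with rfl | hj0
    · exact hb0C (by simpa using h)
    have hcopj : Nat.Coprime j p :=
      (Nat.coprime_comm.1 ((hp.coprime_iff_not_dvd).2 fun hd =>
        absurd (Nat.le_of_dvd hj0 hd) (not_le.2 hj)))
    obtain ⟨k, hk⟩ : ∃ k, j * k ≡ 1 [MOD p] := by
      obtain ⟨k, hk⟩ := Nat.exists_mul_mod_eq_one_of_coprime hcopj hp.one_lt
      exact ⟨k, by rw [Nat.ModEq, hk.2, Nat.mod_eq_of_lt hp.one_lt]⟩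
    have pm : ∀ y ∈ B, ∀ n n' : ℕ, n ≡ n' [MOD p] → y ^ n = y ^ n' := by
      intro y hy n n' hnn
      exact pow_eq_pow_iff_modEq.2 (hnn.of_dvd (orderOf_dvd_of_pow_eq_one (hBp y hy)))
    -- `(b0 * b ^ j) ^ k = b0 ^ k * b`
    have hcom : Commute b0 b := hBc b0 hb0 b hbB
    have h5 : (b0 * b ^ j) ^ k = b0 ^ k * b := by
      rw [(hcom.pow_right j).mul_pow, ← pow_mul, pm b hbB _ _ hk, pow_one]
    have h6 : b0 ^ k * b ∈ st x := h5 ▸ (st x).pow_mem h k
    have h7 : b = (b0 ^ k * b) * b0 ^ ((p - k % p) % p) := by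
      have h8 : b0 ^ k * b0 ^ ((p - k % p) % p) = 1 := by
        rw [← pow_add]
        have h9 : k + (p - k % p) % p ≡ 0 [MOD p] := by
          have h10 : k + (p - k % p) % p ≡ k % p + (p - k % p) [MOD p] :=
            Nat.ModEq.add (Nat.mod_modEq k p).symm (Nat.mod_modEq _ p)
          rw [Nat.add_sub_cancel' (Nat.mod_lt k hp.pos).le] at h10
          exact h10.trans (by simp [Nat.ModEq])
        rw [pm b0 hb0 _ _ h9, pow_zero]
      rw [(hcom.pow_left k).eq, mul_assoc, h8, mul_one]
    exact hbE _ h6 _ (Nat.mod_lt _ hp.pos) h7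
  -- norms
  let X : Additive Q := Additive.ofMul ⟨x, hxQ⟩
  let N : B → AddMonoid.End (Additive Q) := fun c => ∑ i ∈ Finset.range p, ρ c ^ i
  have hN1 : ∀ c : B, ρ c * N c = N c := by
    intro c
    have h1 : ρ c * N c + 1 = N c + ρ c ^ p := by
      simp only [N]
      rw [← Finset.sum_range_succ (fun i => ρ c ^ i) p, Finset.sum_range_succ', Finset.mul_sum]
      simp [pow_succ']
    rw [ρp] at h1
    exact add_right_cancel h1
  have hcomN : ∀ d c : B, ρ d * N c = N c * ρ d := by
    intro d c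
    exact Commute.sum_right _ _ _ fun i _ => (ρc d c).pow_right i
  have hNfix : ∀ c : B, (c : Γ) ∉ st x → ∀ d : B, ρ d (N c X) = N c X := by
    intro c hc
    by_contra hcon
    push Not at hcon
    obtain ⟨d, hd⟩ := hcon
    let y : Q := Additive.toMul (N c X)
    have hy : Additive.ofMul y = N c X := rfl
    have hyS : (y : Γ) ∈ S := by
      refine ⟨y.2, d, d.2, fun h => hd ?_⟩
      rw [← hy]
      exact (fix_iff d y).2 h
    have h1 := hmax y hyS
    have hle : st x ≤ st y := by
      intro e he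
      obtain ⟨heB, hex⟩ := (mem_st x e).1 he
      refine (mem_st y e).2 ⟨heB, ?_⟩
      have h2 : ρ ⟨e, heB⟩ X = X := (fix_iff ⟨e, heB⟩ ⟨x, hxQ⟩).2 hex
      apply (fix_iff ⟨e, heB⟩ y).1
      rw [hy]
      have h3 := congrArg (fun f : AddMonoid.End (Additive Q) => f X) (hcomN ⟨e, heB⟩ c)
      have h4 : ρ ⟨e, heB⟩ (N c X) = N c (ρ ⟨e, heB⟩ X) := h3
      rw [h4, h2]
    have hcy : (c : Γ) ∈ st y := by
      refine (mem_st y c).2 ⟨c.2, (fix_iff c y).1 ?_⟩
      rw [hy]
      exact congrArg (fun f : AddMonoid.End (Additive Q) => f X) (hN1 c)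
    have heq : st x = st y := Subgroup.eq_of_le_of_card_ge hle h1
    exact hc (heq ▸ hcy)
  -- the identity
  let a' : B := ⟨b0, hb0⟩
  let b' : B := ⟨b, hbB⟩
  have hid := ring_identity p hp (ρ a') (ρ b') (ρc a' b') (ρp b')
  have hid2 := congrArg (fun f : AddMonoid.End (Additive Q) => f X) hid
  have hL : (∑ j ∈ Finset.range p, ∑ i ∈ Finset.range p, (ρ a' * ρ b' ^ j) ^ i)
      = ∑ j ∈ Finset.range p, N (a' * b' ^ j) := by
    refine Finset.sum_congr rfl fun j _ => ?_
    simp only [N, map_mul, map_pow]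
  rw [hL] at hid2
  -- the fixed elements
  let F : AddSubgroup (Additive Q) :=
    { carrier := {y | ∀ d : B, ρ d y = y}
      zero_mem' := fun d => map_zero _
      add_mem' := fun {y z} hy hz d => by rw [map_add, hy d, hz d]
      neg_mem' := fun {y} hy d => by rw [map_neg, hy d] }
  have memF : ∀ y, y ∈ F ↔ ∀ d : B, ρ d y = y := fun y => Iff.rfl
  have h1F : (∑ j ∈ Finset.range p, N (a' * b' ^ j)) X ∈ F := by
    rw [eval_sum]
    refine F.sum_mem fun j hj => ?_
    exact hNfix _ (by simpa [a', b'] using habC j (Finset.mem_range.1 hj))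
  have hbF : N b' X ∈ F := hNfix _ hbC
  have h2F : ((∑ i ∈ (Finset.range p).erase 0, ρ a' ^ i) * ∑ j ∈ Finset.range p, ρ b' ^ j) X ∈ F := by
    change (∑ i ∈ (Finset.range p).erase 0, ρ a' ^ i) (N b' X) ∈ F
    rw [eval_sum]
    refine F.sum_mem fun i _ => ?_
    have : (ρ a' ^ i) (N b' X) = N b' X := by
      rw [← map_pow]
      exact hbF _
    rw [this]
    exact hbF
  have h3F : (p : AddMonoid.End (Additive Q)) X ∈ F := by
    have h4 : (p : AddMonoid.End (Additive Q)) X =
        (∑ j ∈ Finset.range p, N (a' * b' ^ j)) X -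
        ((∑ i ∈ (Finset.range p).erase 0, ρ a' ^ i) * ∑ j ∈ Finset.range p, ρ b' ^ j) X := by
      rw [eq_sub_iff_add_eq]
      exact hid2.symm
    rw [h4]
    exact F.sub_mem h1F h2F
  have h4F : p • X ∈ F := by
    have h5 : (p : AddMonoid.End (Additive Q)) X = p • X := by
      simp
    rw [← h5]; exact h3F
  have h5F : X ∈ F := by
    have hcardX : Nat.card Q • X = 0 := by
      have h6 : Nat.card (Additive Q) • X = 0 := card_nsmul_eq_zero'
      exact h6
    have hz : (1 : ℤ) = (Nat.card Q : ℤ) * Nat.gcdA (Nat.card Q) p + (p : ℤ) * Nat.gcdB (Nat.card Q) p := by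
      have := Nat.gcd_eq_gcd_ab (Nat.card Q) p
      rw [hcop] at this
      exact_mod_cast this
    have h7 : X = (Nat.gcdB (Nat.card Q) p) • (p • X) := by
      have h8 : ((1 : ℤ)) • X = X := one_zsmul X
      rw [hz, add_zsmul, mul_comm, mul_zsmul, natCast_zsmul, hcardX, zsmul_zero, zero_add,
        mul_comm, mul_zsmul, natCast_zsmul] at h8
      exact h8.symm
    rw [h7]
    exact F.zsmul_mem h4F _
  exact hb0x ((fix_iff ⟨b0, hb0⟩ ⟨x, hxQ⟩).1 (h5F ⟨b0, hb0⟩))

end Pool.Agent.helper67.TH
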