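import Pool.Agent.helper48.TH.Spec2

/-!
# Project TH (MP_f42afa_pr), row D3 (helper67)
-/

set_option autoImplicit false

namespace TP.TW

open DP MeasureTheory Finset

private theorem D3_prob : IsProbabilityMeasure P1 := by
  unfold P1
  infer_instance

private theorem D3_nonneg (F : Set (V → Bool)) : 0 ≤ Pr F := measureReal_nonneg

private theorem D3_le_one (F : Set (V → Bool)) : Pr F ≤ 1 := by
  haveI := D3_prob
  exact measureReal_le_one

private theorem D3_union (F G : Set (V → Bool)) : Pr (F ∪ G) ≤ Pr F + Pr G :=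
  measureReal_union_le F G

private theorem D3_mono {F G : Set (V → Bool)} (h : F ⊆ G) : Pr F ≤ Pr G := by
  haveI := D3_prob
  exact measureReal_mono h

/-- the number of the `τ ∈ T` with `v - τ ∈ A` -/
private theorem D3_count (T U A : Finset V) (v : V)
    (h : ∀ τ ∈ T, (v.1 - τ.1, v.2 - τ.2) ∈ U) :
    #{τ ∈ T | (v.1 - τ.1, v.2 - τ.2) ∈ A} ≤ #{u ∈ U | u ∈ A} := by
  refine Finset.card_le_card_of_injOn (fun τ => (v.1 - τ.1, v.2 - τ.2)) ?_ ?_
  · intro τ hτ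
    have h1 := Finset.mem_filter.1 (Finset.mem_coe.1 hτ)
    exact Finset.mem_coe.2 (Finset.mem_filter.2 ⟨h τ h1.1, h1.2⟩)
  · intro τ _ σ _ hτσ
    have h1 : v.1 - τ.1 = v.1 - σ.1 := congrArg Prod.fst hτσ
    have h2 : v.2 - τ.2 = v.2 - σ.2 := congrArg Prod.snd hτσ
    exact Prod.ext (by omega) (by omega)

/-- a sum over the translates is at most the sum over `U` -/
private theorem D3_sum (T U : Finset V) (z : V) (f : V → ℝ) (hf : ∀ v, 0 ≤ f v)
    (h : ∀ τ ∈ T, (z.1 - τ.1, z.2 - τ.2) ∈ U) :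
    ∑ τ ∈ T, f (z.1 - τ.1, z.2 - τ.2) ≤ ∑ v ∈ U, f v := by
  classical
  have hinj : Set.InjOn (fun τ : V => ((z.1 - τ.1, z.2 - τ.2) : V)) (T : Set V) := by
    intro τ _ σ _ hτσ
    have h1 : z.1 - τ.1 = z.1 - σ.1 := congrArg Prod.fst hτσ
    have h2 : z.2 - τ.2 = z.2 - σ.2 := congrArg Prod.snd hτσ
    exact Prod.ext (by omega) (by omega)
  rw [← Finset.sum_image (f := f) hinj]
  refine Finset.sum_le_sum_of_subset_of_nonneg ?_ fun v _ _ => hf v
  intro v hv
  obtain ⟨τ, hτ, rfl⟩ := Finset.mem_image.1 hv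
  exact h τ hτ

private theorem D3_dec (h1 : SHP_stmt) (h2 : INP_stmt) (A Ω : Finset V)
    (B : (V → Bool) → Finset V) (hAB : Two A Ω B) :
    DEC (fun β => A ∪ B β) (fun v => (if v ∈ A then 1 else 0) + Pr {β | v ∈ B β}) 1 2 := by
  classical
  obtain ⟨-, -, -, hB⟩ := hAB
  intro T U Λ z E hE hU
  have hUz : ∀ τ ∈ T, (z.1 - τ.1, z.2 - τ.2) ∈ U := hU z (Finset.mem_insert_self _ _)
  set M : ℕ := #{u ∈ U | u ∈ A} with hM
  set F : V → Set (V → Bool) := fun τ =>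
    {β | (z.1 - τ.1, z.2 - τ.2) ∈ B (fun v => β (v.1 + τ.1, v.2 + τ.2))} with hF
  set q : V → ℝ := fun v => Pr {β : V → Bool | v ∈ B β} with hq
  have hq0 : ∀ v, 0 ≤ q v := fun v => D3_nonneg _
  set Q : ℝ := ∑ v ∈ U, q v with hQ
  have hQ0 : 0 ≤ Q := Finset.sum_nonneg fun v _ => hq0 v
  -- the probabilities of the translated events
  have hPF : ∀ τ : V, Pr (F τ) = q (z.1 - τ.1, z.2 - τ.2) := by
    intro τ
    refine h1 {β : V → Bool | ((z.1 - τ.1, z.2 - τ.2) : V) ∈ B β} A ?_ τ.1 τ.2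
    intro b b' hb
    show _ ∈ B b ↔ _ ∈ B b'
    rw [hB b b' hb]
  have hsumF : ∑ τ ∈ T, Pr (F τ) ≤ Q := by
    rw [Finset.sum_congr rfl fun τ _ => hPF τ]
    exact D3_sum T U z q hq0 hUz
  -- the entropy inequality
  have hINP := h2 V T E F Λ (fun τ => A.image fun v => (v.1 + τ.1, v.2 + τ.2)) M hE
    (fun τ _ => by
      intro b b' hb
      show _ ∈ B _ ↔ _ ∈ B _
      rw [hB (fun v => b (v.1 + τ.1, v.2 + τ.2)) (fun v => b' (v.1 + τ.1, v.2 + τ.2))
        fun v hv => hb _ (Finset.mem_image_of_mem _ hv)])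
    (fun v hv => by
      refine le_trans (Finset.card_le_card ?_)
        (D3_count T U A v (hU v (Finset.mem_insert_of_mem hv)))
      intro τ hτ
      rw [Finset.mem_filter] at hτ ⊢
      obtain ⟨hτT, hτA⟩ := hτ
      obtain ⟨w, hw, hwv⟩ := Finset.mem_image.1 hτA
      refine ⟨hτT, ?_⟩
      have e : ((v.1 - τ.1, v.2 - τ.2) : V) = w := by
        rw [← hwv]
        exact Prod.ext (by simp) (by simp)
      rw [e]
      exact hw)
  -- the first part
  have hterm : ∀ τ ∈ T, Pr (E ∩ {β | (z.1 - τ.1, z.2 - τ.2) ∈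
      A ∪ B (fun v => β (v.1 + τ.1, v.2 + τ.2))}) ≤
      (if ((z.1 - τ.1, z.2 - τ.2) : V) ∈ A then Pr E else 0) + Pr (E ∩ F τ) := by
    intro τ _
    by_cases hA : ((z.1 - τ.1, z.2 - τ.2) : V) ∈ A
    · rw [if_pos hA]
      have h3 := D3_mono (F := E ∩ {β | (z.1 - τ.1, z.2 - τ.2) ∈
        A ∪ B (fun v => β (v.1 + τ.1, v.2 + τ.2))}) (G := E) Set.inter_subset_left
      have h4 := D3_nonneg (E ∩ F τ)
      linarith
    · rw [if_neg hA, zero_add]
      refine D3_mono ?_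
      rintro β ⟨hβE, hβ⟩
      refine ⟨hβE, ?_⟩
      rcases Finset.mem_union.1 hβ with h3 | h3
      · exact absurd h3 hA
      · exact h3
  have hfirst : ∑ τ ∈ T, (if ((z.1 - τ.1, z.2 - τ.2) : V) ∈ A then Pr E else 0) ≤ M * Pr E := by
    rw [← Finset.sum_filter, Finset.sum_const, nsmul_eq_mul]
    refine mul_le_mul_of_nonneg_right ?_ (D3_nonneg E)
    exact_mod_cast D3_count T U A z hUz
  have hw : ∑ v ∈ U, ((if v ∈ A then (1 : ℝ) else 0) + Pr {β : V → Bool | v ∈ B β}) = M + Q := by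
    rw [Finset.sum_add_distrib, ← Finset.sum_filter, Finset.sum_const, nsmul_eq_mul, mul_one]
  have hp0 := D3_nonneg E
  have hp1 := D3_le_one E
  set p : ℝ := Pr E with hp
  set x : ℝ := Real.log (1 / p) with hx
  have hx0 : 0 ≤ x := by
    rcases hp0.eq_or_lt with h3 | h3
    · rw [hx, ← h3]
      simp
    · exact Real.log_nonneg ((one_le_div h3).2 hp1)
  set l : ℝ := Real.log ((#T : ℝ) + #Λ + 3) with hl
  have hl1 : 1 ≤ l := by
    rw [hl, Real.le_log_iff_exp_le (by positivity)]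
    have h3 := Real.exp_one_lt_d9
    have h4 : (0 : ℝ) ≤ (#T : ℝ) := Nat.cast_nonneg _
    have h5 : (0 : ℝ) ≤ (#Λ : ℝ) := Nat.cast_nonneg _
    linarith
  have hM0 : (0 : ℝ) ≤ (M : ℝ) := Nat.cast_nonneg _
  have h6 : 2 * p * ∑ τ ∈ T, Pr (F τ) ≤ 2 * p * Q :=
    mul_le_mul_of_nonneg_left hsumF (by positivity)
  have h7 : ∑ τ ∈ T, Pr (E ∩ {β | (z.1 - τ.1, z.2 - τ.2) ∈
      A ∪ B (fun v => β (v.1 + τ.1, v.2 + τ.2))}) ≤ M * p + (p * (M * x) + 2 * p * Q) := by
    refine (Finset.sum_le_sum hterm).trans ?_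
    rw [Finset.sum_add_distrib]
    linarith
  refine h7.trans ?_
  show _ ≤ 2 * p * (x + l) ^ 1 * ∑ v ∈ U, ((if v ∈ A then (1 : ℝ) else 0) + Pr {β : V → Bool | v ∈ B β})
  rw [hw, pow_one]
  have h8 : p * (M + M * x + 2 * Q) ≤ p * (2 * (x + l) * (M + Q)) := by
    refine mul_le_mul_of_nonneg_left ?_ hp0
    have h9 : 2 * (x + 1) * (M + Q) ≤ 2 * (x + l) * (M + Q) := by
      refine mul_le_mul_of_nonneg_right ?_ (by positivity)
      linarith
    have h10 : (M : ℝ) + M * x + 2 * Q ≤ 2 * (x + 1) * (M + Q) := by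
      nlinarith [mul_nonneg hM0 hx0, mul_nonneg hQ0 hx0]
    linarith
  nlinarith [h8]

theorem D3 (h1 : SHP_stmt) (h2 : INP_stmt) : D3_stmt := by
  classical
  intro A Ω B hAB
  have hdec := D3_dec h1 h2 A Ω B hAB
  obtain ⟨hA, hΩ, hBΩ, hB⟩ := hAB
  refine ⟨?_, ?_, ⟨A, ?_⟩, ?_, ?_, by norm_num, ?_⟩
  · intro v hv
    rcases Finset.mem_union.1 hv with h | h
    · exact hA v h
    · exact hΩ v h
  · intro β
    exact Finset.union_subset_union le_rfl (hBΩ β)
  · intro β β' h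
    show A ∪ B β = A ∪ B β'
    rw [hB β β' h]
  · intro v
    have h3 := D3_nonneg {β : V → Bool | v ∈ B β}
    show 0 ≤ (if v ∈ A then (1 : ℝ) else 0) + Pr {β : V → Bool | v ∈ B β}
    split_ifs
    · linarith
    · linarith
  · intro v hv
    rw [Finset.mem_union, not_or] at hv
    have h3 : {β : V → Bool | v ∈ B β} = ∅ := by
      ext β
      simp only [Set.mem_setOf_eq, Set.mem_empty_iff_false, iff_false]
      exact fun h => hv.2 (hBΩ β h)
    show (if v ∈ A then (1 : ℝ) else 0) + Pr {β : V → Bool | v ∈ B β} = 0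
    rw [if_neg hv.1, h3, zero_add]
    exact measureReal_empty
  · exact hdec

end TP.TW
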